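import Pool.Agent.Helper76.FT.GoalsC

/-!
# Packet FT-UNIQT (MP_39e2b7_an): a complex torus of given class is unique
-/

set_option autoImplicit false

namespace Pool.Agent.Helper8.FT

open Complex Set Filter Topology MeasureTheory
open Pool.Agent.Helper76.FT
open scoped Interval

/-! ### Parametric integrals -/

theorem isOpen_Str' (ρ : ℝ) : IsOpen (Str ρ) := by
  have : Str ρ = (fun z : ℂ => |z.im|) ⁻¹' Iio ρ := rfl
  rw [this]
  exact isOpen_Iio.preimage (by fun_prop)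

theorem paramHol {U : Set ℂ} (hU : IsOpen U) {F : ℂ → ℝ → ℂ} {B : ℝ}
    (hd : ∀ s ∈ Icc (0:ℝ) 1, DifferentiableOn ℂ (fun z => F z s) U)
    (hc : ∀ z ∈ U, ContinuousOn (F z) (Icc (0:ℝ) 1))
    (hb : ∀ z ∈ U, ∀ s ∈ Icc (0:ℝ) 1, ‖F z s‖ ≤ B) :
    DifferentiableOn ℂ (fun z => ∫ s in (0:ℝ)..1, F z s) U := by
  intro z0 hz0
  obtain ⟨r, hr, hball⟩ := Metric.isOpen_iff.1 hU z0 hz0
  have hr2 : 0 < r / 2 := by linarith
  have hsub : Ioc (0:ℝ) 1 ⊆ Icc (0:ℝ) 1 := Ioc_subset_Icc_self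
  have hmeas : ∀ z ∈ U, AEStronglyMeasurable (F z) (volume.restrict (Ι (0:ℝ) 1)) := by
    intro z hz
    rw [uIoc_of_le zero_le_one]
    exact ((hc z hz).mono hsub).aestronglyMeasurable measurableSet_Ioc
  have hder : ∀ z ∈ U, ∀ s ∈ Icc (0:ℝ) 1, HasDerivAt (fun z => F z s)
      (deriv (fun z => F z s) z) z := fun z hz s hs =>
    ((hd s hs).differentiableAt (hU.mem_nhds hz)).hasDerivAt
  have key := intervalIntegral.hasDerivAt_integral_of_dominated_loc_of_deriv_le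
    (F := F) (F' := fun z s => deriv (fun z => F z s) z) (x₀ := z0) (s := Metric.ball z0 (r / 2))
    (a := 0) (b := 1) (μ := volume)
    (bound := fun _ => B / (r / 4)) (Metric.ball_mem_nhds z0 hr2) ?_ ?_ ?_ ?_ ?_ ?_
  · exact key.2.differentiableAt.differentiableWithinAt
  · filter_upwards [Metric.ball_mem_nhds z0 hr] with z hz
    exact hmeas z (hball hz)
  · have : ContinuousOn (F z0) (uIcc (0:ℝ) 1) := by
      rw [uIcc_of_le zero_le_one]; exact hc z0 hz0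
    exact this.intervalIntegrable
  · -- measurability of the derivative
    have hlim : ∀ᵐ s ∂(volume.restrict (Ι (0:ℝ) 1)), Tendsto
        (fun n : ℕ => ((((r / 2) / ((n : ℝ) + 1) : ℝ) : ℂ))⁻¹ *
          (F (z0 + (((r / 2) / ((n : ℝ) + 1) : ℝ) : ℂ)) s - F z0 s)) atTop
        (𝓝 (deriv (fun z => F z s) z0)) := by
      rw [ae_restrict_iff' measurableSet_uIoc]
      refine Eventually.of_forall fun s hs => ?_
      rw [uIoc_of_le zero_le_one] at hs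
      have h1 := (hder z0 hz0 s (hsub hs)).tendsto_slope_zero
      have h2 : Tendsto (fun n : ℕ => (((r / 2) / ((n : ℝ) + 1) : ℝ) : ℂ)) atTop
          (𝓝[≠] (0:ℂ)) := by
        rw [tendsto_nhdsWithin_iff]
        constructor
        · have h3 : Tendsto (fun n : ℕ => (r / 2) / ((n : ℝ) + 1)) atTop (𝓝 0) :=
            Tendsto.div_atTop tendsto_const_nhds
              (tendsto_atTop_add_const_right _ _ tendsto_natCast_atTop_atTop)
          have h4 := (Complex.continuous_ofReal.tendsto 0).comp h3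
          rw [Complex.ofReal_zero] at h4
          exact h4
        · refine Eventually.of_forall fun n => ?_
          have : (r / 2) / ((n : ℝ) + 1) ≠ 0 := by positivity
          exact Complex.ofReal_ne_zero.2 this
      have h5 := h1.comp h2
      simpa [Function.comp_def, smul_eq_mul] using h5
    refine aestronglyMeasurable_of_tendsto_ae atTop (fun n => ?_) hlim
    have hmem : z0 + (((r / 2) / ((n : ℝ) + 1) : ℝ) : ℂ) ∈ U := by
      apply hball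
      rw [Metric.mem_ball, dist_eq_norm, add_sub_cancel_left, Complex.norm_real,
        Real.norm_eq_abs, abs_of_pos (by positivity)]
      have h1 : (r / 2) / ((n : ℝ) + 1) ≤ r / 2 := by
        apply div_le_self hr2.le
        have : (0:ℝ) ≤ n := Nat.cast_nonneg n
        linarith
      linarith
    exact ((hmeas _ hmem).sub (hmeas z0 hz0)).const_mul _
  · refine Eventually.of_forall fun s hs z hz => ?_
    rw [uIoc_of_le zero_le_one] at hs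
    have hr4 : 0 < r / 4 := by linarith
    refine Complex.norm_deriv_le_of_forall_mem_sphere_norm_le hr4 ?_ ?_
    · apply DifferentiableOn.diffContOnCl
      rw [closure_ball _ hr4.ne']
      refine (hd s (hsub hs)).mono fun y hy => hball ?_
      rw [Metric.mem_closedBall] at hy
      rw [Metric.mem_ball] at hz ⊢
      calc dist y z0 ≤ dist y z + dist z z0 := dist_triangle _ _ _
        _ < r := by linarith
    · intro y hy
      refine hb y (hball ?_) s (hsub hs)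
      rw [Metric.mem_sphere] at hy
      rw [Metric.mem_ball] at hz ⊢
      calc dist y z0 ≤ dist y z + dist z z0 := dist_triangle _ _ _
        _ < r := by linarith
  · exact intervalIntegrable_const
  · refine Eventually.of_forall fun s hs z hz => ?_
    rw [uIoc_of_le zero_le_one] at hs
    exact hder z (hball (Metric.ball_subset_ball (by linarith) hz)) s (hsub hs)

theorem paramCont {A : Set (ℂ × ℝ)} {F : ℂ × ℝ → ℝ → ℂ}
    (hF : ContinuousOn (fun q : (ℂ × ℝ) × ℝ => F q.1 q.2) (A ×ˢ Icc (0:ℝ) 1)) :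
    ContinuousOn (fun q => ∫ s in (0:ℝ)..1, F q s) A := by
  rw [continuousOn_iff_continuous_domRestrict]
  have h1 : Continuous (Function.uncurry fun (q : A) (s : ℝ) =>
      F q.1 (projIcc (0:ℝ) 1 zero_le_one s)) := by
    have h2 : Continuous (fun x : A × ℝ => ((x.1 : ℂ × ℝ),
        ((projIcc (0:ℝ) 1 zero_le_one x.2 : Icc (0:ℝ) 1) : ℝ))) := by fun_prop
    exact hF.comp_continuous h2 (fun x => ⟨x.1.2, (projIcc (0:ℝ) 1 zero_le_one x.2).2⟩)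
  have h3 := intervalIntegral.continuous_parametric_intervalIntegral_of_continuous'
    (μ := volume) h1 0 1
  convert h3 using 1
  funext q
  simp only [domRestrict_apply]
  apply intervalIntegral.integral_congr
  intro s hs
  rw [uIcc_of_le zero_le_one] at hs
  simp only
  rw [projIcc_of_mem zero_le_one hs]


/-! ### The neighbourhood `Pb` -/

section

variable {S : Sys}

theorem a_mem (h : S.Ok) : S.a ∈ Icc S.a S.b := ⟨le_refl _, (h.ha.trans h.hb).le⟩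
theorem b_mem (h : S.Ok) : S.b ∈ Icc S.a S.b := ⟨(h.ha.trans h.hb).le, le_refl _⟩

/-- real points of the region are in the complex neighbourhood -/
theorem reg_nb (h : S.Ok) {t : ℝ} {y : ℝ × ℝ} (hy : y ∈ S.Reg t) :
    ((y.1 : ℂ), (y.2 : ℂ)) ∈ S.Nb t S.r :=
  ⟨y, hy, by simpa using h.hr, by simpa using h.hr⟩

theorem Pb_open (hReg : GReg) (hMom : GMom) (h : S.Ok) {r t : ℝ} (ht : t ∈ Icc (0:ℝ) 1)
    {z : ℂ × ℂ} (hz : z ∈ Pb S t r) :
    ∀ᶠ y : ℝ × (ℂ × ℂ) in 𝓝[Icc (0:ℝ) 1 ×ˢ univ] (t, z), y.2 ∈ Pb S y.1 r := by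
  obtain ⟨y0, hy0, h1, h2⟩ := hz
  have hmove := (hReg S h).2.2.1
  obtain ⟨k0, M, hk0, hM, hpc, -, -⟩ := hMom S h
  have hc1 : ContinuousWithinAt (fun y : ℝ × (ℂ × ℂ) =>
      ‖y.2.1 - ((y0.1 + (y.1 - t) * y0.2 : ℝ) : ℂ)‖) (Icc (0:ℝ) 1 ×ˢ univ) (t, z) := by
    apply Continuous.continuousWithinAt
    fun_prop
  have hc2 : ContinuousWithinAt (fun y : ℝ × (ℂ × ℂ) =>
      ‖y.2.2 - S.p y.1 ((y0.1 + (y.1 - t) * y0.2 : ℝ) : ℂ) (y0.2 : ℂ)‖)
      (Icc (0:ℝ) 1 ×ˢ univ) (t, z) := by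
    have h3 : ContinuousWithinAt (fun y : ℝ × (ℂ × ℂ) =>
        S.p y.1 ((y0.1 + (y.1 - t) * y0.2 : ℝ) : ℂ) (y0.2 : ℂ)) (Icc (0:ℝ) 1 ×ˢ univ) (t, z) := by
      have h4 : ContinuousWithinAt (fun y : ℝ × (ℂ × ℂ) =>
          ((y.1, (((y0.1 + (y.1 - t) * y0.2 : ℝ) : ℂ), (y0.2 : ℂ))) : ℝ × (ℂ × ℂ)))
          (Icc (0:ℝ) 1 ×ˢ univ) (t, z) := by
        apply Continuous.continuousWithinAt
        fun_prop
      have hmap : MapsTo (fun y : ℝ × (ℂ × ℂ) =>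
          ((y.1, (((y0.1 + (y.1 - t) * y0.2 : ℝ) : ℂ), (y0.2 : ℂ))) : ℝ × (ℂ × ℂ)))
          (Icc (0:ℝ) 1 ×ˢ univ) {y | y.1 ∈ Icc (0:ℝ) 1 ∧ y.2 ∈ S.Nb y.1 S.r} := by
        intro y hy
        exact ⟨hy.1, reg_nb h (hmove t ht y.1 hy.1 y0 hy0)⟩
      have h5 := hpc _ (hmap (x := (t, z)) ⟨ht, mem_univ _⟩)
      exact ContinuousWithinAt.comp (g := fun y : ℝ × (ℂ × ℂ) => S.p y.1 y.2.1 y.2.2)
        (f := fun y : ℝ × (ℂ × ℂ) =>
          ((y.1, (((y0.1 + (y.1 - t) * y0.2 : ℝ) : ℂ), (y0.2 : ℂ))) : ℝ × (ℂ × ℂ)))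
        (x := (t, z)) h5 h4 hmap
    have h6 : ContinuousWithinAt (fun y : ℝ × (ℂ × ℂ) => y.2.2)
        (Icc (0:ℝ) 1 ×ˢ univ) (t, z) := by
      apply Continuous.continuousWithinAt
      fun_prop
    exact (h6.sub h3).norm
  have h1' : ‖((t, z) : ℝ × (ℂ × ℂ)).2.1
      - ((y0.1 + (((t, z) : ℝ × (ℂ × ℂ)).1 - t) * y0.2 : ℝ) : ℂ)‖ < r := by simpa using h1
  have h2' : ‖((t, z) : ℝ × (ℂ × ℂ)).2.2 - S.p ((t, z) : ℝ × (ℂ × ℂ)).1
      ((y0.1 + (((t, z) : ℝ × (ℂ × ℂ)).1 - t) * y0.2 : ℝ) : ℂ) (y0.2 : ℂ)‖ < r := by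
    simpa using h2
  have e1 := hc1.eventually (gt_mem_nhds h1')
  have e2 := hc2.eventually (gt_mem_nhds h2')
  filter_upwards [e1, e2, eventually_mem_nhdsWithin] with y k1 k2 k3
  exact ⟨(y0.1 + (y.1 - t) * y0.2, y0.2), hmove t ht y.1 k3.1 y0 hy0, k1, k2⟩

theorem Reg_per (h : S.Ok) {t : ℝ} (ht : t ∈ Icc (0:ℝ) 1) {y : ℝ × ℝ} :
    ((y.1 + 1, y.2) ∈ S.Reg t) ↔ y ∈ S.Reg t := by
  have k1 := h.Vper S.a (a_mem h) y.1 t ht
  have k2 := h.Vper S.b (b_mem h) y.1 t ht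
  constructor
  · intro hy
    have h1 : S.V S.a (y.1 + 1) t ≤ y.2 := hy.1
    have h2 : y.2 ≤ S.V S.b (y.1 + 1) t := hy.2
    exact ⟨by rw [← k1]; exact h1, by rw [← k2]; exact h2⟩
  · intro hy
    exact ⟨by rw [k1]; exact hy.1, by rw [k2]; exact hy.2⟩

theorem Pb_per (hMom : GMom) (h : S.Ok) {r t : ℝ} (ht : t ∈ Icc (0:ℝ) 1) {z : ℂ × ℂ}
    (hz : (z.1 + 1, z.2) ∈ Pb S t r) : z ∈ Pb S t r := by
  obtain ⟨y, hy, h1, h2⟩ := hz
  obtain ⟨k0, M, hk0, hM, -, -, hmom⟩ := hMom S h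
  have hy' : (y.1 - 1, y.2) ∈ S.Reg t := by
    rw [← Reg_per h ht]
    simpa using hy
  have hp := (hmom t ht).2.2 _ (reg_nb h hy')
  have hper := hp.2.2.2.2.2.2.2.1
  refine ⟨(y.1 - 1, y.2), hy', ?_, ?_⟩
  · have : z.1 - ((y.1 - 1 : ℝ) : ℂ) = z.1 + 1 - (y.1 : ℂ) := by push_cast; ring
    show ‖z.1 - ((y.1 - 1 : ℝ) : ℂ)‖ < r
    rw [this]; exact h1
  · show ‖z.2 - S.p t ((y.1 - 1 : ℝ) : ℂ) (y.2 : ℂ)‖ < r
    have e : (((y.1 - 1, y.2) : ℝ × ℝ).1 : ℂ) + 1 = (y.1 : ℂ) := by push_cast; ring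
    simp only at hper e
    rw [e] at hper
    rw [← hper]; exact h2

theorem Pb_per_nat (hMom : GMom) (h : S.Ok) {r t : ℝ} (ht : t ∈ Icc (0:ℝ) 1) {z : ℂ × ℂ}
    (n : ℕ) (hz : (z.1 + n, z.2) ∈ Pb S t r) : z ∈ Pb S t r := by
  induction n with
  | zero => simpa using hz
  | succ n ih =>
    apply ih
    apply Pb_per hMom h ht
    have : z.1 + (n : ℂ) + 1 = z.1 + ((n + 1 : ℕ) : ℂ) := by push_cast; ring
    show (z.1 + (n : ℂ) + 1, z.2) ∈ Pb S t r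
    rw [this]; exact hz

theorem Pb_per' (hMom : GMom) (h : S.Ok) {r t : ℝ} (ht : t ∈ Icc (0:ℝ) 1) {z : ℂ × ℂ}
    (hz : (z.1 - 1, z.2) ∈ Pb S t r) : z ∈ Pb S t r := by
  obtain ⟨y, hy, h1, h2⟩ := hz
  obtain ⟨k0, M, hk0, hM, -, -, hmom⟩ := hMom S h
  have hy' : (y.1 + 1, y.2) ∈ S.Reg t := (Reg_per h ht).2 hy
  have hper := ((hmom t ht).2.2 _ (reg_nb h hy)).2.2.2.2.2.2.2.1
  refine ⟨(y.1 + 1, y.2), hy', ?_, ?_⟩
  · have : z.1 - ((y.1 + 1 : ℝ) : ℂ) = z.1 - 1 - (y.1 : ℂ) := by push_cast; ring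
    show ‖z.1 - ((y.1 + 1 : ℝ) : ℂ)‖ < r
    rw [this]; exact h1
  · show ‖z.2 - S.p t ((y.1 + 1 : ℝ) : ℂ) (y.2 : ℂ)‖ < r
    have e : ((y.1 + 1 : ℝ) : ℂ) = (y.1 : ℂ) + 1 := by push_cast; ring
    simp only at hper
    rw [e, hper]; exact h2

theorem Pb_per_nat' (hMom : GMom) (h : S.Ok) {r t : ℝ} (ht : t ∈ Icc (0:ℝ) 1) {z : ℂ × ℂ}
    (n : ℕ) (hz : (z.1 - n, z.2) ∈ Pb S t r) : z ∈ Pb S t r := by
  induction n with
  | zero => simpa using hz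
  | succ n ih =>
    apply ih
    apply Pb_per' hMom h ht
    have : z.1 - (n : ℂ) - 1 = z.1 - ((n + 1 : ℕ) : ℂ) := by push_cast; ring
    show (z.1 - (n : ℂ) - 1, z.2) ∈ Pb S t r
    rw [this]; exact hz

theorem Pb_per_int (hMom : GMom) (h : S.Ok) {r t : ℝ} (ht : t ∈ Icc (0:ℝ) 1) {z : ℂ × ℂ}
    (n : ℤ) (hz : (z.1 - n, z.2) ∈ Pb S t r) : z ∈ Pb S t r := by
  rcases Int.eq_nat_or_neg n with ⟨m, hm | hm⟩
  · apply Pb_per_nat' hMom h ht m
    rw [hm] at hz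
    simpa using hz
  · apply Pb_per_nat hMom h ht m
    rw [hm] at hz
    simpa using hz

/-- integer periodicity of a function on the strip -/
theorem per_int {ρ : ℝ} {f : ℂ → ℂ} (hf : ∀ z ∈ Str ρ, f (z + 1) = f z) {z : ℂ} (hz : z ∈ Str ρ)
    (n : ℤ) : f (z - n) = f z := by
  have hs : ∀ k : ℤ, z + k ∈ Str ρ := by
    intro k
    have : (z + k).im = z.im := by simp
    show |(z + k).im| < ρ
    rw [this]; exact hz
  have h1 : ∀ k : ℤ, f (z + (k + 1 : ℤ)) = f (z + k) := by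
    intro k
    have e : z + ((k + 1 : ℤ) : ℂ) = z + k + 1 := by push_cast; ring
    rw [e]
    exact hf _ (hs k)
  have h2 : ∀ k : ℤ, f (z + k) = f z := by
    intro k
    induction k using Int.induction_on with
    | zero => simp
    | succ i hi => rw [h1, hi]
    | pred i hi =>
      have := h1 (-i - 1)
      rw [sub_add_cancel] at this
      rw [← this, hi]
  have := h2 (-n)
  rw [← this]
  push_cast
  rw [sub_eq_add_neg]

/-- compactness: a function with values in `Pb` over the real line has values in `Pb` over a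
strip -/
theorem strip_Pb (hReg : GReg) (hMom : GMom) (h : S.Ok) {r ρ : ℝ} (hρ : 0 < ρ)
    {G : ℂ → ℝ → ℝ → ℂ}
    (hG : ContinuousOn (fun q : ℂ × ℝ × ℝ => G q.1 q.2.1 q.2.2)
      (Str ρ ×ˢ (Icc (0:ℝ) 1 ×ˢ Icc (0:ℝ) 1)))
    (hper : ∀ z ∈ Str ρ, ∀ t ∈ Icc (0:ℝ) 1, ∀ s ∈ Icc (0:ℝ) 1, G (z + 1) t s = G z t s)
    (hreal : ∀ x : ℝ, ∀ t ∈ Icc (0:ℝ) 1, ∀ s ∈ Icc (0:ℝ) 1, ((x : ℂ), G x t s) ∈ Pb S t r) :
    ∃ ρ' : ℝ, 0 < ρ' ∧ ρ' ≤ ρ ∧ ∀ z ∈ Str ρ', ∀ t ∈ Icc (0:ℝ) 1, ∀ s ∈ Icc (0:ℝ) 1,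
      (z, G z t s) ∈ Pb S t r := by
  have hK : IsCompact (Icc (0:ℝ) 1 ×ˢ (Icc (0:ℝ) 1 ×ˢ Icc (0:ℝ) 1)) :=
    isCompact_Icc.prod (isCompact_Icc.prod isCompact_Icc)
  have hev := hK.eventually_forall_of_forall_eventually (x₀ := (0:ℝ))
    (P := fun (η : ℝ) (q : ℝ × ℝ × ℝ) => q.2.1 ∈ Icc (0:ℝ) 1 → q.2.2 ∈ Icc (0:ℝ) 1 →
      ((q.1 : ℂ) + η * I, G ((q.1 : ℂ) + η * I) q.2.1 q.2.2) ∈ Pb S q.2.1 r) (by
    intro q hq
    obtain ⟨hx, ht, hs⟩ := hq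
    set A : Set (ℝ × (ℝ × ℝ × ℝ)) := {p | |p.1| < ρ ∧ p.2.2.1 ∈ Icc (0:ℝ) 1 ∧
      p.2.2.2 ∈ Icc (0:ℝ) 1} with hA
    have hmemA : ((0:ℝ), q) ∈ A := ⟨by simpa using hρ, ht, hs⟩
    have hc0 : Continuous (fun p : ℝ × (ℝ × ℝ × ℝ) =>
        ((((p.2.1 : ℂ) + p.1 * I), (p.2.2.1, p.2.2.2)) : ℂ × ℝ × ℝ)) := by fun_prop
    have hmapA : MapsTo (fun p : ℝ × (ℝ × ℝ × ℝ) =>
        ((((p.2.1 : ℂ) + p.1 * I), (p.2.2.1, p.2.2.2)) : ℂ × ℝ × ℝ)) A
        (Str ρ ×ˢ (Icc (0:ℝ) 1 ×ˢ Icc (0:ℝ) 1)) := by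
      intro p hp
      refine ⟨?_, hp.2.1, hp.2.2⟩
      show |((p.2.1 : ℂ) + p.1 * I).im| < ρ
      simpa using hp.1
    have hcG : ContinuousWithinAt (fun p : ℝ × (ℝ × ℝ × ℝ) =>
        G ((p.2.1 : ℂ) + p.1 * I) p.2.2.1 p.2.2.2) A (0, q) :=
      ContinuousWithinAt.comp (g := fun q : ℂ × ℝ × ℝ => G q.1 q.2.1 q.2.2)
        (f := fun p : ℝ × (ℝ × ℝ × ℝ) =>
          ((((p.2.1 : ℂ) + p.1 * I), (p.2.2.1, p.2.2.2)) : ℂ × ℝ × ℝ))
        (x := (0, q)) (hG _ (hmapA hmemA)) hc0.continuousWithinAt hmapA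
    have hcΦ : ContinuousWithinAt (fun p : ℝ × (ℝ × ℝ × ℝ) =>
        ((p.2.2.1, (((p.2.1 : ℂ) + p.1 * I), G ((p.2.1 : ℂ) + p.1 * I) p.2.2.1 p.2.2.2)) :
          ℝ × (ℂ × ℂ))) A (0, q) := by
      refine ContinuousWithinAt.prodMk ?_ (ContinuousWithinAt.prodMk ?_ hcG)
      · apply Continuous.continuousWithinAt
        fun_prop
      · apply Continuous.continuousWithinAt
        fun_prop
    have hpt : ((q.2.1, (((q.1 : ℂ) + (0:ℝ) * I), G ((q.1 : ℂ) + (0:ℝ) * I) q.2.1 q.2.2)) :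
        ℝ × (ℂ × ℂ)) = (q.2.1, ((q.1 : ℂ), G (q.1 : ℂ) q.2.1 q.2.2)) := by simp
    have hopen := Pb_open hReg hMom h ht (hreal q.1 q.2.1 ht q.2.2 hs)
    have hT : Tendsto (fun p : ℝ × (ℝ × ℝ × ℝ) =>
        ((p.2.2.1, (((p.2.1 : ℂ) + p.1 * I), G ((p.2.1 : ℂ) + p.1 * I) p.2.2.1 p.2.2.2)) :
          ℝ × (ℂ × ℂ))) (𝓝[A] (0, q)) (𝓝[Icc (0:ℝ) 1 ×ˢ univ]
            (q.2.1, ((q.1 : ℂ), G (q.1 : ℂ) q.2.1 q.2.2))) := by
      rw [tendsto_nhdsWithin_iff]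
      constructor
      · rw [← hpt]
        exact hcΦ
      · filter_upwards [eventually_mem_nhdsWithin] with p hp
        exact ⟨hp.2.1, mem_univ _⟩
    have h2 := hT.eventually hopen
    rw [eventually_nhdsWithin_iff] at h2
    have h3 : ∀ᶠ p : ℝ × (ℝ × ℝ × ℝ) in 𝓝 (0, q), |p.1| < ρ := by
      have hc : Continuous (fun p : ℝ × (ℝ × ℝ × ℝ) => |p.1|) := by fun_prop
      have := (hc.tendsto (0, q)).eventually (gt_mem_nhds (a := ρ) (by simpa using hρ))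
      exact this
    filter_upwards [h2, h3] with p hp1 hp2 hp3 hp4
    exact hp1 ⟨hp2, hp3, hp4⟩)
  obtain ⟨ε, hε, hball⟩ := Metric.eventually_nhds_iff.1 hev
  refine ⟨min (ε / 2) ρ, by positivity, min_le_right _ _, ?_⟩
  intro z hz t ht s hs
  have hzε : |z.im| < ε / 2 := lt_of_lt_of_le hz (min_le_left _ _)
  have hzρ : |z.im| < ρ := lt_of_lt_of_le hz (min_le_right _ _)
  have h1 := hball (y := z.im) (by rw [dist_zero_right, Real.norm_eq_abs]; linarith)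
    (Int.fract z.re, t, s) ⟨⟨Int.fract_nonneg _, (Int.fract_lt_one _).le⟩, ht, hs⟩ ht hs
  simp only at h1
  have e : ((Int.fract z.re : ℝ) : ℂ) + z.im * I = z - (⌊z.re⌋ : ℤ) := by
    have : ((Int.fract z.re : ℝ) : ℂ) = (z.re : ℂ) - ((⌊z.re⌋ : ℤ) : ℂ) := by
      rw [← Int.self_sub_floor]; push_cast; ring
    rw [this]
    have h2 := Complex.re_add_im z
    linear_combination h2
  rw [e] at h1
  have h3 : G (z - (⌊z.re⌋ : ℤ)) t s = G z t s :=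
    per_int (f := fun z => G z t s) (fun z hz => hper z hz t ht s hs) hzρ _
  rw [h3] at h1
  exact Pb_per_int hMom h ht ⌊z.re⌋ h1


/-! ### Momenta over the real line -/

/-- Lipschitz bound of the momentum in the imaginary direction -/
theorem p_lip (h : S.Ok) {M : ℝ}
    (hM : ∀ t ∈ Icc (0:ℝ) 1, ∀ z ∈ S.Nb t S.r,
      HasDerivAt (fun w => S.p t z.1 w) (S.κ (z.1 - t * z.2) z.2) z.2 ∧
      ‖S.κ (z.1 - t * z.2) z.2‖ ≤ M) {t : ℝ} (ht : t ∈ Icc (0:ℝ) 1) {x : ℝ} {v : ℂ}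
    (hx : (x, v.re) ∈ S.Reg t) (hv : |v.im| < S.r) :
    ‖S.p t (x : ℂ) v - S.p t (x : ℂ) (v.re : ℂ)‖ ≤ M * |v.im| := by
  have hb : ∀ y ∈ Metric.ball (v.re : ℂ) S.r, ((x : ℂ), y) ∈ S.Nb t S.r := by
    intro y hy
    refine ⟨(x, v.re), hx, ?_, ?_⟩
    · simpa using h.hr
    · rw [Metric.mem_ball, dist_eq_norm] at hy
      exact hy
  have e : v - (v.re : ℂ) = ((v.im : ℝ) : ℂ) * I := by
    have hv0 : v = v.re + v.im * I := (Complex.re_add_im v).symm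
    linear_combination hv0
  have hn : ‖v - (v.re : ℂ)‖ = |v.im| := by
    rw [e, norm_mul, Complex.norm_I, mul_one, Complex.norm_real, Real.norm_eq_abs]
  have h1 := (convex_ball (v.re : ℂ) S.r).norm_image_sub_le_of_norm_hasDerivWithin_le
    (f := fun w => S.p t (x : ℂ) w) (f' := fun w => S.κ ((x : ℂ) - t * w) w) (C := M)
    (x := (v.re : ℂ)) (y := v)
    (fun y hy => (hM t ht _ (hb y hy)).1.hasDerivWithinAt)
    (fun y hy => (hM t ht _ (hb y hy)).2) (Metric.mem_ball_self h.hr)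
    (by rw [Metric.mem_ball, dist_eq_norm, hn]; exact hv)
  rw [hn] at h1
  exact h1

/-- the momentum of a real point is real -/
theorem p_real (h : S.Ok)
    (hsym : ∀ t ∈ Icc (0:ℝ) 1, ∀ z ∈ S.Nb t S.r,
      S.p t ((starRingEnd ℂ) z.1) ((starRingEnd ℂ) z.2) = (starRingEnd ℂ) (S.p t z.1 z.2))
    {t : ℝ} (ht : t ∈ Icc (0:ℝ) 1) {x v : ℝ} (hx : (x, v) ∈ S.Reg t) :
    S.p t (x : ℂ) (v : ℂ) = ((S.p t (x : ℂ) (v : ℂ)).re : ℂ) := by
  have h1 := hsym t ht _ (reg_nb h hx)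
  simp only [Complex.conj_ofReal] at h1
  exact (Complex.conj_eq_iff_re.1 h1.symm).symm

/-- convex combinations of real momenta -/
theorem p_ivt (h : S.Ok)
    (hpc : ContinuousOn (fun y : ℝ × (ℂ × ℂ) => S.p y.1 y.2.1 y.2.2)
      {y | y.1 ∈ Icc (0:ℝ) 1 ∧ y.2 ∈ S.Nb y.1 S.r})
    {t : ℝ} (ht : t ∈ Icc (0:ℝ) 1) {x v1 v2 s : ℝ} (h1 : (x, v1) ∈ S.Reg t)
    (h2 : (x, v2) ∈ S.Reg t) (hs : s ∈ Icc (0:ℝ) 1) :
    ∃ v : ℝ, (x, v) ∈ S.Reg t ∧ (S.p t (x : ℂ) (v : ℂ)).re =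
      (1 - s) * (S.p t (x : ℂ) (v1 : ℂ)).re + s * (S.p t (x : ℂ) (v2 : ℂ)).re := by
  have hsub : uIcc v1 v2 ⊆ {v | (x, v) ∈ S.Reg t} := by
    intro v hv
    have h3 : v ∈ Icc (S.V S.a x t) (S.V S.b x t) := by
      have : uIcc v1 v2 ⊆ Icc (S.V S.a x t) (S.V S.b x t) :=
        uIcc_subset_Icc ⟨h1.1, h1.2⟩ ⟨h2.1, h2.2⟩
      exact this hv
    exact ⟨h3.1, h3.2⟩
  have hc : ContinuousOn (fun v : ℝ => (S.p t (x : ℂ) (v : ℂ)).re) (uIcc v1 v2) := by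
    have hc1 : ContinuousOn (fun v : ℝ => S.p t (x : ℂ) (v : ℂ)) (uIcc v1 v2) := by
      have hc2 : Continuous (fun v : ℝ => ((t, ((x : ℂ), (v : ℂ))) : ℝ × (ℂ × ℂ))) := by fun_prop
      exact hpc.comp hc2.continuousOn (fun v hv => ⟨ht, reg_nb h (hsub hv)⟩)
    exact Complex.continuous_re.comp_continuousOn hc1
  have himg := intermediate_value_uIcc hc
  have hmem : (1 - s) * (S.p t (x : ℂ) (v1 : ℂ)).re + s * (S.p t (x : ℂ) (v2 : ℂ)).re ∈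
      uIcc (S.p t (x : ℂ) (v1 : ℂ)).re (S.p t (x : ℂ) (v2 : ℂ)).re := by
    rw [← segment_eq_uIcc]
    exact ⟨1 - s, s, by linarith [hs.2], hs.1, by ring, by simp⟩
  obtain ⟨v, hv, he⟩ := himg hmem
  exact ⟨v, hsub hv, he⟩

/-- a convex combination of two momenta of small height is in `Pb`, with the vertical segment
below it -/
theorem seg_Pb (h : S.Ok) {M r δ : ℝ} (hM0 : 0 < M)
    (hM : ∀ t ∈ Icc (0:ℝ) 1, ∀ z ∈ S.Nb t S.r,
      HasDerivAt (fun w => S.p t z.1 w) (S.κ (z.1 - t * z.2) z.2) z.2 ∧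
      ‖S.κ (z.1 - t * z.2) z.2‖ ≤ M)
    (hpc : ContinuousOn (fun y : ℝ × (ℂ × ℂ) => S.p y.1 y.2.1 y.2.2)
      {y | y.1 ∈ Icc (0:ℝ) 1 ∧ y.2 ∈ S.Nb y.1 S.r})
    (hsym : ∀ t ∈ Icc (0:ℝ) 1, ∀ z ∈ S.Nb t S.r,
      S.p t ((starRingEnd ℂ) z.1) ((starRingEnd ℂ) z.2) = (starRingEnd ℂ) (S.p t z.1 z.2))
    (hδ : δ < S.r) (hMδ : M * δ < r) (hr0 : 0 < r)
    {t : ℝ} (ht : t ∈ Icc (0:ℝ) 1) {x s : ℝ} {v v' : ℂ}
    (h1 : (x, v.re) ∈ S.Reg t) (h2 : (x, v'.re) ∈ S.Reg t) (hv : |v.im| ≤ δ) (hv' : |v'.im| ≤ δ)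
    (hs : s ∈ Icc (0:ℝ) 1) {τ : ℝ} (hτ : τ ∈ Icc (0:ℝ) 1) {y : ℂ}
    (hy : y = S.p t (x : ℂ) v' + s * (S.p t (x : ℂ) v - S.p t (x : ℂ) v')) :
    ((x : ℂ), (y.re : ℂ) + (τ * y.im : ℝ) * I) ∈ Pb S t r := by
  obtain ⟨u, hu, he⟩ := p_ivt h hpc ht h2 h1 hs
  have r1 := p_real h hsym ht h1
  have r2 := p_real h hsym ht h2
  have ru := p_real h hsym ht hu
  have l1 := p_lip h hM ht h1 (lt_of_le_of_lt hv hδ)
  have l2 := p_lip h hM ht h2 (lt_of_le_of_lt hv' hδ)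
  have hdist : ‖y - S.p t (x : ℂ) (u : ℂ)‖ < r := by
    have e1 : y - S.p t (x : ℂ) (u : ℂ) =
        ((1 - s : ℝ) : ℂ) * (S.p t (x : ℂ) v' - S.p t (x : ℂ) (v'.re : ℂ)) +
        (s : ℂ) * (S.p t (x : ℂ) v - S.p t (x : ℂ) (v.re : ℂ)) := by
      have e2 : S.p t (x : ℂ) (u : ℂ) = ((1 - s : ℝ) : ℂ) * S.p t (x : ℂ) (v'.re : ℂ) +
          (s : ℂ) * S.p t (x : ℂ) (v.re : ℂ) := by
        rw [ru, he, r1, r2]
        push_cast
        simp
      rw [e2, hy]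
      push_cast
      ring
    rw [e1]
    have n1 : ‖((1 - s : ℝ) : ℂ)‖ = 1 - s := by
      rw [Complex.norm_real, Real.norm_eq_abs, abs_of_nonneg (by linarith [hs.2])]
    have n2 : ‖(s : ℂ)‖ = s := by
      rw [Complex.norm_real, Real.norm_eq_abs, abs_of_nonneg hs.1]
    calc _ ≤ ‖((1 - s : ℝ) : ℂ) * (S.p t (x : ℂ) v' - S.p t (x : ℂ) (v'.re : ℂ))‖ +
        ‖(s : ℂ) * (S.p t (x : ℂ) v - S.p t (x : ℂ) (v.re : ℂ))‖ := norm_add_le _ _
      _ ≤ (1 - s) * (M * δ) + s * (M * δ) := by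
        rw [norm_mul, norm_mul, n1, n2]
        apply add_le_add
        · apply mul_le_mul_of_nonneg_left _ (by linarith [hs.2])
          exact l2.trans (mul_le_mul_of_nonneg_left hv' hM0.le)
        · apply mul_le_mul_of_nonneg_left _ hs.1
          exact l1.trans (mul_le_mul_of_nonneg_left hv hM0.le)
      _ = M * δ := by ring
      _ < r := hMδ
  refine ⟨(x, u), hu, ?_, ?_⟩
  · simpa using hr0
  · refine lt_of_le_of_lt ?_ hdist
    show ‖(y.re : ℂ) + (τ * y.im : ℝ) * I - S.p t (x : ℂ) (u : ℂ)‖ ≤ _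
    rw [ru]
    rw [Complex.norm_eq_sqrt_sq_add_sq, Complex.norm_eq_sqrt_sq_add_sq]
    apply Real.sqrt_le_sqrt
    have e1 : ((y.re : ℂ) + (τ * y.im : ℝ) * I - ((S.p t (x : ℂ) (u : ℂ)).re : ℂ)).re =
        y.re - (S.p t (x : ℂ) (u : ℂ)).re := by simp
    have e2 : ((y.re : ℂ) + (τ * y.im : ℝ) * I - ((S.p t (x : ℂ) (u : ℂ)).re : ℂ)).im =
        τ * y.im := by simp
    have e3 : (y - ((S.p t (x : ℂ) (u : ℂ)).re : ℂ)).re =
        y.re - (S.p t (x : ℂ) (u : ℂ)).re := by simp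
    have e4 : (y - ((S.p t (x : ℂ) (u : ℂ)).re : ℂ)).im = y.im := by simp
    rw [e1, e2, e3, e4]
    have : (τ * y.im) ^ 2 ≤ y.im ^ 2 := by
      rw [mul_pow]
      have : τ ^ 2 ≤ 1 := by nlinarith [hτ.1, hτ.2]
      nlinarith [sq_nonneg y.im]
    linarith

/-- height of `W` at a point above a real point -/
theorem W_im {W : ℝ → ℂ → ℂ → ℂ} {r₂ r₃ M k₀ : ℝ} (hW : WF S W r₂ r₃ M k₀) {t : ℝ}
    (ht : t ∈ Icc (0:ℝ) 1) {x : ℝ} {y : ℂ}
    (hy : ∀ τ ∈ Icc (0:ℝ) 1, ((x : ℂ), (y.re : ℂ) + (τ * y.im : ℝ) * I) ∈ Pb S t r₂)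
    (hy0 : 0 < y.im) : k₀ * y.im ≤ (W t (x : ℂ) y).im := by
  have hd : ∀ v : ℂ, ((x : ℂ), v) ∈ Pb S t r₂ →
      HasDerivAt (fun v => W t (x : ℂ) v) (deriv (fun v => W t (x : ℂ) v) v) v := by
    intro v hv
    have h1 : DifferentiableAt ℂ (fun z : ℂ × ℂ => W t z.1 z.2) ((x : ℂ), v) :=
      (hW.hol t ht).differentiableAt ((hW.opn t).mem_nhds hv)
    have h2 : DifferentiableAt ℂ (fun v : ℂ => W t (x : ℂ) v) v := by
      have h3 : DifferentiableAt ℂ (fun v : ℂ => (((x : ℂ), v) : ℂ × ℂ)) v := by fun_prop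
      exact h1.comp v h3
    exact h2.hasDerivAt
  have hγ : ∀ τ : ℝ, HasDerivAt (fun τ : ℝ => (y.re : ℂ) + (τ * y.im : ℝ) * I)
      ((y.im : ℂ) * I) τ := by
    intro τ
    have h1 : HasDerivAt (fun τ : ℝ => (τ * y.im : ℝ)) (1 * y.im) τ :=
      (hasDerivAt_id τ).mul_const y.im
    have h2 := (h1.ofReal_comp.mul_const I).const_add (y.re : ℂ)
    simpa using h2
  set g : ℝ → ℝ := fun τ => (W t (x : ℂ) ((y.re : ℂ) + (τ * y.im : ℝ) * I)).im with hg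
  set D : ℝ → ℂ := fun τ => deriv (fun v => W t (x : ℂ) v) ((y.re : ℂ) + (τ * y.im : ℝ) * I)
    with hD
  have hder : ∀ τ ∈ Icc (0:ℝ) 1, HasDerivAt g ((D τ * ((y.im : ℂ) * I)).im) τ := by
    intro τ hτ
    have h1 := (hd _ (hy τ hτ)).comp τ (hγ τ)
    have h2 : HasDerivAt (fun τ : ℝ => W t (x : ℂ) ((y.re : ℂ) + (τ * y.im : ℝ) * I))
        (D τ * ((y.im : ℂ) * I)) τ := h1
    exact (Complex.imCLM.hasFDerivAt.comp_hasDerivAt τ h2)
  have hcont : ContinuousOn g (Icc 0 1) := fun τ hτ => (hder τ hτ).continuousAt.continuousWithinAt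
  obtain ⟨c, hc, he⟩ := exists_hasDerivAt_eq_slope g (fun τ => (D τ * ((y.im : ℂ) * I)).im)
    zero_lt_one hcont (fun τ hτ => hder τ ⟨hτ.1.le, hτ.2.le⟩)
  have h0 : g 0 = 0 := by
    have h1 := hy 0 ⟨le_refl _, zero_le_one⟩
    have h2 := (hW.sym t ht _ h1).2
    simp only [zero_mul, Complex.ofReal_zero, add_zero, Complex.conj_ofReal] at h2
    simp only [hg, zero_mul, Complex.ofReal_zero, add_zero]
    exact Complex.conj_eq_iff_im.1 h2.symm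
  have h1 : g 1 = (W t (x : ℂ) y).im := by
    simp only [hg, one_mul]
    rw [Complex.re_add_im]
  have hbd := (hW.bd t ht _ (hy c ⟨hc.1.le, hc.2.le⟩)).2.2
  simp only at hbd
  have h3 : (D c * ((y.im : ℂ) * I)).im = (D c).re * y.im := by
    simp [Complex.mul_im, Complex.mul_re]
  rw [h3, h0, h1, sub_zero, sub_zero, div_one] at he
  rw [← he]
  exact mul_le_mul_of_nonneg_right hbd hy0.le

end

/-! ### The theorem -/

theorem ft_uniqt : GReg → GMom → GTorP → GW → GE → GShrink → GToPhi → GUniq → GUniqT := by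
  intro hReg hMom hTorP hGW hGE hShrink hToPhi hUniq S h
  obtain ⟨W, r₂, r₃, MW, k₀, hW⟩ := hGW S h
  obtain ⟨kp, M, hkp, hM0, hpc, -, hmom⟩ := hMom S h
  obtain ⟨kT, MT, hkT, hMT, hTor⟩ := hTorP S h
  have hM : ∀ t ∈ Icc (0:ℝ) 1, ∀ z ∈ S.Nb t S.r,
      HasDerivAt (fun w => S.p t z.1 w) (S.κ (z.1 - t * z.2) z.2) z.2 ∧
      ‖S.κ (z.1 - t * z.2) z.2‖ ≤ M := fun t ht z hz =>
    ⟨((hmom t ht).2.2 z hz).1, ((hmom t ht).2.2 z hz).2.2.2.2.1⟩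
  have hsym : ∀ t ∈ Icc (0:ℝ) 1, ∀ z ∈ S.Nb t S.r,
      S.p t ((starRingEnd ℂ) z.1) ((starRingEnd ℂ) z.2) = (starRingEnd ℂ) (S.p t z.1 z.2) :=
    fun t ht z hz => ((hmom t ht).2.2 z hz).2.2.2.2.2.2.2.2.2.1
  have hr2 := hW.h2
  have hr3 := hW.h3
  refine ⟨min (r₃ / 2) (r₂ / (2 * M)), by positivity, ?_⟩
  intro δ ρa ρb w w' c hδ hw hw'
  have hδ3 : δ < r₃ := by
    have := hδ.trans (min_le_left _ _)
    linarith
  have hδr : δ < S.r := lt_of_lt_of_le hδ3 hW.h3'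
  have hMδ : M * δ < r₂ := by
    have h1 := hδ.trans (min_le_right _ _)
    have h2 : M * δ ≤ M * (r₂ / (2 * M)) := mul_le_mul_of_nonneg_left h1 hM0.le
    have h3 : M * (r₂ / (2 * M)) = r₂ / 2 := by field_simp
    linarith
  -- common strip
  obtain ⟨hsa, ρa', hρa', hρa'', hna⟩ := hShrink S h r₃ δ ρa w c hδ3 hw
  obtain ⟨hsb, ρb', hρb', hρb'', hnb⟩ := hShrink S h r₃ δ ρb w' c hδ3 hw'
  set ρ := min ρa' ρb' with hρdef
  have hρ : 0 < ρ := lt_min hρa' hρb'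
  have hwa : Tor S δ w ρ c := hsa ρ hρ ((min_le_left _ _).trans hρa'')
  have hwb : Tor S δ w' ρ c := hsb ρ hρ ((min_le_right _ _).trans hρb'')
  have hna' : ∀ z ∈ Str ρ, ∀ t ∈ Icc (0:ℝ) 1, (z, w z t) ∈ S.Nb t r₃ := fun z hz t ht =>
    hna z (lt_of_lt_of_le (show |z.im| < ρ from hz) (min_le_left _ _)) t ht
  have hnb' : ∀ z ∈ Str ρ, ∀ t ∈ Icc (0:ℝ) 1, (z, w' z t) ∈ S.Nb t r₃ := fun z hz t ht =>
    hnb z (lt_of_lt_of_le (show |z.im| < ρ from hz) (min_le_right _ _)) t ht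
  obtain ⟨φ, e, hφ, hPφ⟩ := hToPhi S h W r₂ r₃ MW k₀ hW δ ρ w c hwa hna'
  obtain ⟨φ', e', hφ', hPφ'⟩ := hToPhi S h W r₂ r₃ MW k₀ hW δ ρ w' c hwb hnb'
  obtain ⟨hPs, -, -, -, -, -, hTa⟩ := hTor δ ρ w c hwa
  obtain ⟨hPs', -, -, -, -, -, hTb⟩ := hTor δ ρ w' c hwb
  set P : ℂ → ℝ → ℂ := fun z t => S.p t z (w z t) with hP
  set P' : ℂ → ℝ → ℂ := fun z t => S.p t z (w' z t) with hP'
  set G : ℂ → ℝ → ℝ → ℂ := fun z t s => P' z t + s * (P z t - P' z t) with hGdef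
  have hGc : ContinuousOn (fun q : ℂ × ℝ × ℝ => G q.1 q.2.1 q.2.2)
      (Str ρ ×ˢ (Icc (0:ℝ) 1 ×ˢ Icc (0:ℝ) 1)) := by
    have hm : MapsTo (fun q : ℂ × ℝ × ℝ => ((q.1, q.2.1) : ℂ × ℝ))
        (Str ρ ×ˢ (Icc (0:ℝ) 1 ×ˢ Icc (0:ℝ) 1)) (Str ρ ×ˢ Icc (0:ℝ) 1) :=
      fun q hq => ⟨hq.1, hq.2.1⟩
    have hc0 : Continuous (fun q : ℂ × ℝ × ℝ => ((q.1, q.2.1) : ℂ × ℝ)) := by fun_prop
    have h1 : ContinuousOn (fun q : ℂ × ℝ × ℝ => P q.1 q.2.1)
        (Str ρ ×ˢ (Icc (0:ℝ) 1 ×ˢ Icc (0:ℝ) 1)) := hPs.cont.comp hc0.continuousOn hm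
    have h2 : ContinuousOn (fun q : ℂ × ℝ × ℝ => P' q.1 q.2.1)
        (Str ρ ×ˢ (Icc (0:ℝ) 1 ×ˢ Icc (0:ℝ) 1)) := hPs'.cont.comp hc0.continuousOn hm
    have h3 : Continuous (fun q : ℂ × ℝ × ℝ => (q.2.2 : ℂ)) := by fun_prop
    exact h2.add (h3.continuousOn.mul (h1.sub h2))
  have hGper : ∀ z ∈ Str ρ, ∀ t ∈ Icc (0:ℝ) 1, ∀ s ∈ Icc (0:ℝ) 1,
      G (z + 1) t s = G z t s := by
    intro z hz t ht s hs
    have h1 := hPs.per z hz t ht
    have h2 := hPs'.per z hz t ht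
    simp only [hGdef, hP, hP'] at h1 h2 ⊢
    rw [h1, h2]
  have himw : ∀ x : ℝ, ∀ t ∈ Icc (0:ℝ) 1, |(w (x : ℂ) t).im| ≤ δ := fun x t ht => by
    rw [abs_of_pos (hwa.pos x t ht).1]; exact (hwa.pos x t ht).2
  have himw' : ∀ x : ℝ, ∀ t ∈ Icc (0:ℝ) 1, |(w' (x : ℂ) t).im| ≤ δ := fun x t ht => by
    rw [abs_of_pos (hwb.pos x t ht).1]; exact (hwb.pos x t ht).2
  have hseg : ∀ x : ℝ, ∀ t ∈ Icc (0:ℝ) 1, ∀ s ∈ Icc (0:ℝ) 1, ∀ τ ∈ Icc (0:ℝ) 1,
      ((x : ℂ), ((G x t s).re : ℂ) + (τ * (G x t s).im : ℝ) * I) ∈ Pb S t r₂ :=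
    fun x t ht s hs τ hτ => seg_Pb h hM0 hM hpc hsym hδr hMδ hr2 ht (hwa.reg x t ht)
      (hwb.reg x t ht) (himw x t ht) (himw' x t ht) hs hτ rfl
  have hreal : ∀ x : ℝ, ∀ t ∈ Icc (0:ℝ) 1, ∀ s ∈ Icc (0:ℝ) 1,
      ((x : ℂ), G x t s) ∈ Pb S t r₂ := by
    intro x t ht s hs
    have h1 := hseg x t ht s hs 1 ⟨zero_le_one, le_refl _⟩
    rw [one_mul, Complex.re_add_im] at h1
    exact h1
  obtain ⟨ρ', hρ', hρ'ρ, hPb⟩ := strip_Pb hReg hMom h hρ hGc hGper hreal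
  have hStr : ∀ z ∈ Str ρ', z ∈ Str ρ := fun z hz =>
    show |z.im| < ρ from lt_of_lt_of_le (show |z.im| < ρ' from hz) hρ'ρ
  -- the mean velocity
  set Wb : ℂ → ℝ → ℂ := fun z t => ∫ s in (0:ℝ)..1, W t z (G z t s) with hWb
  have hFc : ContinuousOn (fun q : (ℂ × ℝ) × ℝ => W q.1.2 q.1.1 (G q.1.1 q.1.2 q.2))
      ((Str ρ' ×ˢ Icc (0:ℝ) 1) ×ˢ Icc (0:ℝ) 1) := by
    have hc0 : Continuous (fun q : (ℂ × ℝ) × ℝ => ((q.1.1, (q.1.2, q.2)) : ℂ × ℝ × ℝ)) := by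
      fun_prop
    have hc1 : ContinuousOn (fun q : (ℂ × ℝ) × ℝ => G q.1.1 q.1.2 q.2)
        ((Str ρ' ×ˢ Icc (0:ℝ) 1) ×ˢ Icc (0:ℝ) 1) :=
      hGc.comp hc0.continuousOn (fun q hq => ⟨hStr _ hq.1.1, hq.1.2, hq.2⟩)
    have hc2 : ContinuousOn (fun q : (ℂ × ℝ) × ℝ =>
        ((q.1.2, (q.1.1, G q.1.1 q.1.2 q.2)) : ℝ × (ℂ × ℂ)))
        ((Str ρ' ×ˢ Icc (0:ℝ) 1) ×ˢ Icc (0:ℝ) 1) := by
      refine ContinuousOn.prodMk ?_ (ContinuousOn.prodMk ?_ hc1)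
      · exact Continuous.continuousOn (by fun_prop)
      · exact Continuous.continuousOn (by fun_prop)
    exact hW.cont.comp hc2 (fun q hq => ⟨hq.1.2, hPb _ hq.1.1 _ hq.1.2 _ hq.2⟩)
  have hFcs : ∀ z ∈ Str ρ', ∀ t ∈ Icc (0:ℝ) 1,
      ContinuousOn (fun s => W t z (G z t s)) (Icc (0:ℝ) 1) := by
    intro z hz t ht
    have hc0 : Continuous (fun s : ℝ => (((z, t), s) : (ℂ × ℝ) × ℝ)) := by fun_prop
    exact hFc.comp hc0.continuousOn (fun s hs => ⟨⟨hz, ht⟩, hs⟩)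
  have hWbSH : SH Wb ρ' := by
    refine ⟨fun t ht => ?_, ?_, ?_⟩
    · refine paramHol (F := fun z s => W t z (G z t s)) (B := MW) (isOpen_Str' ρ') ?_ ?_ ?_
      · intro s hs z hz
        have h1 : DifferentiableAt ℂ (fun q : ℂ × ℂ => W t q.1 q.2) (z, G z t s) :=
          (hW.hol t ht).differentiableAt ((hW.opn t).mem_nhds (hPb z hz t ht s hs))
        have d1 : DifferentiableAt ℂ (fun z => P z t) z :=
          (hPs.hol t ht).differentiableAt ((isOpen_Str' ρ).mem_nhds (hStr z hz))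
        have d2 : DifferentiableAt ℂ (fun z => P' z t) z :=
          (hPs'.hol t ht).differentiableAt ((isOpen_Str' ρ).mem_nhds (hStr z hz))
        have d3 : DifferentiableAt ℂ (fun z => G z t s) z :=
          d2.add ((d1.sub d2).const_mul (s : ℂ))
        have d4 : DifferentiableAt ℂ (fun z => ((z, G z t s) : ℂ × ℂ)) z :=
          differentiableAt_id.prodMk d3
        exact (h1.comp z d4).differentiableWithinAt
      · intro z hz
        exact hFcs z hz t ht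
      · intro z hz s hs
        exact (hW.bd t ht _ (hPb z hz t ht s hs)).1
    · exact paramCont (F := fun q s => W q.2 q.1 (G q.1 q.2 s)) hFc
    · intro z hz t ht
      simp only [hWb]
      apply intervalIntegral.integral_congr
      intro s hs
      rw [uIcc_of_le zero_le_one] at hs
      simp only
      rw [hGper z (hStr z hz) t ht s hs]
      exact (hW.per t ht _ (hPb z hz t ht s hs)).2
  -- difference of the Hamiltonians
  have hE := (hGE S h W r₂ r₃ MW k₀ hW).2.2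
  have hdiff : ∀ z ∈ Str ρ', ∀ t ∈ Icc (0:ℝ) 1,
      Ef W t z (P z t) - Ef W t z (P' z t) = Wb z t * (P z t - P' z t) := by
    intro z hz t ht
    have h1 : ∀ s ∈ uIcc (0:ℝ) 1, HasDerivAt (fun s : ℝ => Ef W t z (G z t s))
        (W t z (G z t s) * (P z t - P' z t)) s := by
      intro s hs
      rw [uIcc_of_le zero_le_one] at hs
      have h2 := ((hE t ht).2.1 _ (hPb z hz t ht s hs)).1
      simp only at h2
      have h3 : HasDerivAt (fun s : ℝ => G z t s) (P z t - P' z t) s := by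
        have h4 : HasDerivAt (fun s : ℝ => (s : ℂ)) 1 s := Complex.ofRealCLM.hasDerivAt
        have h5 := (h4.mul_const (P z t - P' z t)).const_add (P' z t)
        simpa [hGdef] using h5
      exact h2.comp s h3
    have h6 : IntervalIntegrable (fun s => W t z (G z t s) * (P z t - P' z t)) volume 0 1 := by
      have h7 : ContinuousOn (fun s => W t z (G z t s) * (P z t - P' z t)) (uIcc (0:ℝ) 1) := by
        rw [uIcc_of_le zero_le_one]
        exact (hFcs z hz t ht).mul continuousOn_const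
      exact h7.intervalIntegrable
    have h8 := intervalIntegral.integral_eq_sub_of_hasDerivAt h1 h6
    rw [intervalIntegral.integral_mul_const] at h8
    have g0 : G z t 0 = P' z t := by simp [hGdef]
    have g1 : G z t 1 = P z t := by simp [hGdef]
    rw [g0, g1] at h8
    exact h8.symm
  -- the linear equation
  have hdz : ∀ z ∈ Str ρ, ∀ t ∈ Icc (0:ℝ) 1,
      dz (fun z t => φ z t - φ' z t) z t = P z t - P' z t := by
    intro z hz t ht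
    have d1 : DifferentiableAt ℂ (fun z => φ z t) z :=
      (hφ.sh.hol t ht).differentiableAt ((isOpen_Str' ρ).mem_nhds hz)
    have d2 : DifferentiableAt ℂ (fun z => φ' z t) z :=
      (hφ'.sh.hol t ht).differentiableAt ((isOpen_Str' ρ).mem_nhds hz)
    have h1 : dz (fun z t => φ z t - φ' z t) z t = dz φ z t - dz φ' z t := by
      unfold dz
      exact deriv_sub d1 d2
    rw [h1]
    have h2 := (hPφ z hz t ht).1
    have h3 := (hPφ' z hz t ht).1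
    simp only [hP, hP']
    rw [← h2, ← h3]
    ring
  have hLSol : LSol (fun z t => φ z t - φ' z t) Wb (fun _ _ => 0) (e' - e) 1 ρ' := by
    refine ⟨⟨fun t ht => ?_, ?_, ?_⟩, ?_, ?_⟩
    · exact ((hφ.sh.hol t ht).mono hStr).sub ((hφ'.sh.hol t ht).mono hStr)
    · have hsub : Str ρ' ×ˢ Icc (0:ℝ) 1 ⊆ Str ρ ×ˢ Icc (0:ℝ) 1 :=
        fun q hq => ⟨hStr _ hq.1, hq.2⟩
      exact (hφ.sh.cont.mono hsub).sub (hφ'.sh.cont.mono hsub)
    · intro z hz t ht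
      rw [hφ.sh.per z (hStr z hz) t ht, hφ'.sh.per z (hStr z hz) t ht]
    · intro z hz
      rw [hφ.close z (hStr z hz), hφ'.close z (hStr z hz)]
    · intro z hz t ht
      have h1 := (hφ.eq z (hStr z hz) t ht).sub (hφ'.eq z (hStr z hz) t ht)
      rw [(hPφ z (hStr z hz) t ht).1, (hPφ' z (hStr z hz) t ht).1] at h1
      have h2 := hdiff z hz t ht
      simp only [hP, hP'] at h2
      have h3 : e - Ef W t z (S.p t z (w z t)) - (e' - Ef W t z (S.p t z (w' z t))) =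
          (0 - Wb z t * dz (fun z t => φ z t - φ' z t) z t - (e' - e)) / ((1:ℝ) : ℂ) := by
        rw [hdz z (hStr z hz) t ht]
        simp only [hP, hP', Complex.ofReal_one, div_one]
        linear_combination -h2
      rw [h3] at h1
      exact h1
  -- positivity
  have hpos : ∀ x : ℝ, ∀ t ∈ Icc (0:ℝ) 1, 0 < (Wb (x : ℂ) t).im := by
    intro x t ht
    have hxs : (x : ℂ) ∈ Str ρ' := by
      show |((x : ℂ)).im| < ρ'
      simpa using hρ'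
    have hcx := hFcs x hxs t ht
    have hint : IntervalIntegrable (fun s => W t (x : ℂ) (G x t s)) volume 0 1 := by
      have : ContinuousOn (fun s => W t (x : ℂ) (G x t s)) (uIcc (0:ℝ) 1) := by
        rw [uIcc_of_le zero_le_one]; exact hcx
      exact this.intervalIntegrable
    have h1 : (Wb (x : ℂ) t).im = ∫ s in (0:ℝ)..1, (W t (x : ℂ) (G x t s)).im := by
      simp only [hWb]
      have h2 := Complex.imCLM.intervalIntegral_comp_comm hint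
      simpa using h2.symm
    rw [h1]
    apply intervalIntegral.intervalIntegral_pos_of_pos_on
    · have : ContinuousOn (fun s => (W t (x : ℂ) (G x t s)).im) (uIcc (0:ℝ) 1) := by
        rw [uIcc_of_le zero_le_one]
        exact Complex.continuous_im.comp_continuousOn hcx
      exact this.intervalIntegrable
    · intro s hs
      have hs' : s ∈ Icc (0:ℝ) 1 := ⟨hs.1.le, hs.2.le⟩
      have hGim : 0 < (G x t s).im := by
        have e1 : (G x t s).im = (1 - s) * (P' x t).im + s * (P x t).im := by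
          simp [hGdef, Complex.mul_im]
          ring
        rw [e1]
        have p1 : 0 < (P x t).im := lt_of_lt_of_le (mul_pos hkT (hwa.pos x t ht).1)
          (hTa x t ht).1
        have p2 : 0 < (P' x t).im := lt_of_lt_of_le (mul_pos hkT (hwb.pos x t ht).1)
          (hTb x t ht).1
        have := mul_pos hs.1 p1
        have := mul_pos (sub_pos.2 hs.2) p2
        linarith
      have h3 := W_im hW ht (hseg x t ht s hs') hGim
      exact lt_of_lt_of_le (mul_pos hW.hk hGim) h3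
    · exact zero_lt_one
  obtain ⟨-, hzero⟩ := hUniq ρ' 1 hρ' zero_lt_one Wb (fun z t => φ z t - φ' z t) (e' - e)
    hWbSH hpos hLSol
  intro x t ht
  have hxs : (x : ℂ) ∈ Str ρ := by
    show |((x : ℂ)).im| < ρ
    simpa using hρ
  have h1 := hzero x t ht
  rw [hdz x hxs t ht, sub_eq_zero] at h1
  have h2 := (hPφ x hxs t ht)
  have h3 := (hPφ' x hxs t ht)
  rw [← h2.2, ← h3.2, h2.1, h3.1]
  simp only [hP, hP'] at h1
  rw [h1]

end Pool.Agent.Helper8.FT
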